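import Pool.Agent.H17.Cone.Stmts

/-!
# The density of a lattice packing
-/

set_option autoImplicit false

namespace Pool.Agent.H17.Cone

open MeasureTheory Filter Topology Module

namespace DEN

/-- Lattice vector. -/
noncomputable def U (g : Basis (Fin 3) ℝ E3) (n : Fin 3 → ℤ) : E3 := ∑ i, (n i : ℝ) • g i

lemma U_inj (g : Basis (Fin 3) ℝ E3) : Function.Injective (U g) := by
  intro n n' h
  have h1 : ⇑(g.repr (U g n)) = fun i => (n i : ℝ) := g.repr_sum_self _
  have h2 : ⇑(g.repr (U g n')) = fun i => (n' i : ℝ) := g.repr_sum_self _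
  rw [h] at h1
  funext i
  have h3 := congrFun (h1.symm.trans h2) i
  exact_mod_cast h3

lemma U_mem (g : Basis (Fin 3) ℝ E3) (n : Fin 3 → ℤ) : U g n ∈ lat g := ⟨n, rfl⟩

lemma vol_tr (u : E3) (C : Set E3) : volume (tr u C) = volume C := by
  unfold tr
  rw [Set.image_add_left, measure_preimage_add]

lemma tr_convex {C : Set E3} (hC : Convex ℝ C) (u : E3) : Convex ℝ (tr u C) := hC.translate u

lemma cover (g : Basis (Fin 3) ℝ E3) (x : E3) :
    ∃ n : Fin 3 → ℤ, ∃ y ∈ parallelepiped g, x = U g n + y := by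
  refine ⟨fun i => ⌊g.repr x i⌋, ∑ i, Int.fract (g.repr x i) • g i, ?_, ?_⟩
  · rw [mem_parallelepiped_iff]
    exact ⟨fun i => Int.fract (g.repr x i),
      ⟨fun i => Int.fract_nonneg _, fun i => (Int.fract_lt_one _).le⟩, rfl⟩
  · unfold U
    rw [← Finset.sum_add_distrib]
    conv_lhs => rw [← g.sum_repr x]
    refine Finset.sum_congr rfl fun i _ => ?_
    rw [← add_smul, Int.floor_add_fract]

lemma aed {A B : Set E3} (hA : Convex ℝ A) (hB : Convex ℝ B)
    (h : Disjoint (interior A) (interior B)) : AEDisjoint volume A B := by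
  have : A ∩ B ⊆ frontier A ∪ frontier B := by
    rintro x ⟨h1, h2⟩
    by_cases hx : x ∈ interior A
    · exact Or.inr ⟨subset_closure h2, fun h3 => Set.disjoint_left.mp h hx h3⟩
    · exact Or.inl ⟨subset_closure h1, hx⟩
  exact measure_mono_null this
    (measure_union_null (hA.addHaar_frontier _) (hB.addHaar_frontier _))

lemma main {g : Basis (Fin 3) ℝ E3} {C : Set E3} (hC : Convex ℝ C) (hp : IsPacking (lat g) C)
    {r D : ℝ} (hr : C ⊆ Metric.ball 0 r) (hD : parallelepiped g ⊆ Metric.ball 0 D) (R : ℝ) :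
    volume C * volume (Metric.ball (0 : E3) (R - (r + D))) ≤
      volume (parallelepiped g) *
        volume ((⋃ u ∈ lat g, tr u C) ∩ Metric.ball (0 : E3) R) := by
  obtain ⟨F, hF⟩ : ∃ F : Set (Fin 3 → ℤ), F = {n | ‖U g n‖ < R - r} := ⟨_, rfl⟩
  have hFc : F.Countable := Set.to_countable F
  have h1 : Metric.ball (0 : E3) (R - (r + D)) ⊆ ⋃ n ∈ F, tr (U g n) (parallelepiped g) := by
    intro x hx
    rw [mem_ball_zero_iff] at hx
    obtain ⟨n, y, hy, hxy⟩ := cover g x
    have hy' := hD hy
    rw [mem_ball_zero_iff] at hy'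
    refine Set.mem_biUnion (x := n) ?_ ⟨y, hy, hxy.symm⟩
    rw [hF, Set.mem_setOf_eq]
    have : U g n = x - y := by rw [hxy]; abel
    rw [this]
    have := norm_sub_le x y
    linarith
  have h2 : volume (⋃ n ∈ F, tr (U g n) (parallelepiped g)) ≤
      ∑' _ : F, volume (parallelepiped g) := by
    refine (measure_biUnion_le _ hFc _).trans (le_of_eq ?_)
    refine tsum_congr fun n => vol_tr _ _
  have h3 : (⋃ n ∈ F, tr (U g n) C) ⊆ (⋃ u ∈ lat g, tr u C) ∩ Metric.ball (0 : E3) R := by
    intro x hx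
    rw [Set.mem_iUnion₂] at hx
    obtain ⟨n, hn, y, hy, rfl⟩ := hx
    rw [hF, Set.mem_setOf_eq] at hn
    refine ⟨Set.mem_biUnion (U_mem g n) ⟨y, hy, rfl⟩, ?_⟩
    have hy' := hr hy
    rw [mem_ball_zero_iff] at hy' ⊢
    have := norm_add_le (U g n) y
    change ‖U g n + y‖ < R
    linarith
  have h4 : volume (⋃ n ∈ F, tr (U g n) C) = ∑' _ : F, volume C := by
    rw [measure_biUnion₀ hFc]
    · exact tsum_congr fun n => vol_tr _ _
    · intro n _ n' _ hne
      exact aed (tr_convex hC _) (tr_convex hC _)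
        (hp _ (U_mem g n) _ (U_mem g n') (fun h => hne (U_inj g h)))
    · intro n _
      exact (tr_convex hC _).nullMeasurableSet _
  calc volume C * volume (Metric.ball (0 : E3) (R - (r + D)))
      ≤ volume C * ∑' _ : F, volume (parallelepiped g) := by
        gcongr
        exact (measure_mono h1).trans h2
    _ = volume (parallelepiped g) * ∑' _ : F, volume C := by
        rw [← ENNReal.tsum_mul_left, ← ENNReal.tsum_mul_left]
        exact tsum_congr fun _ => mul_comm _ _
    _ = volume (parallelepiped g) * volume (⋃ n ∈ F, tr (U g n) C) := by rw [h4]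
    _ ≤ _ := by
        gcongr

lemma ball_real {r : ℝ} (hr : 0 ≤ r) : (volume (Metric.ball (0 : E3) r)).toReal =
    r ^ 3 * (volume (Metric.ball (0 : E3) 1)).toReal := by
  rw [Measure.addHaar_ball _ _ hr, ENNReal.toReal_mul, finrank_euclideanSpace_fin,
    ENNReal.toReal_ofReal (by positivity)]

lemma ball_pos {r : ℝ} (hr : 0 < r) : 0 < (volume (Metric.ball (0 : E3) r)).toReal :=
  ENNReal.toReal_pos (Metric.measure_ball_pos _ _ hr).ne' measure_ball_lt_top.ne

lemma lim (s : ℝ) : Tendsto (fun R : ℝ => (volume (Metric.ball (0 : E3) (R - s))).toReal /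
    (volume (Metric.ball (0 : E3) R)).toReal) atTop (𝓝 1) := by
  have h1 : Tendsto (fun R : ℝ => (1 - s / R) ^ 3) atTop (𝓝 ((1 - 0) ^ 3)) :=
    (tendsto_const_nhds.sub (tendsto_const_nhds.div_atTop tendsto_id)).pow 3
  have h2 : ((1 : ℝ) - 0) ^ 3 = 1 := by norm_num
  rw [h2] at h1
  refine h1.congr' ?_
  filter_upwards [eventually_gt_atTop (max s 0)] with R hR
  have hs : s < R := (le_max_left _ _).trans_lt hR
  have h0 : 0 < R := (le_max_right _ _).trans_lt hR
  rw [ball_real (by linarith : (0 : ℝ) ≤ R - s), ball_real h0.le]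
  have hb := ball_pos (one_pos)
  field_simp

end DEN

open DEN in
theorem den_thm : DENStmt := by
  intro g C hC hcomp hp
  obtain ⟨r, hr⟩ := hcomp.isBounded.subset_ball (0 : E3)
  have hPc : IsCompact (parallelepiped g) := by
    have := g.parallelepiped.isCompact
    rwa [Basis.coe_parallelepiped] at this
  obtain ⟨D, hD⟩ := hPc.isBounded.subset_ball (0 : E3)
  have hPpos : 0 < (volume (parallelepiped g)).toReal := by
    refine ENNReal.toReal_pos ?_ hPc.measure_lt_top.ne
    have := g.parallelepiped.interior_nonempty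
    rw [Basis.coe_parallelepiped] at this
    exact (Measure.measure_pos_of_nonempty_interior _ this).ne'
  have hC' := hcomp.measure_lt_top (μ := volume)
  obtain ⟨c, hc⟩ : ∃ c : ℝ, c = (volume C).toReal / (volume (parallelepiped g)).toReal :=
    ⟨_, rfl⟩
  rw [← hc]
  have hbd : ∀ R : ℝ, volume ((⋃ u ∈ lat g, tr u C) ∩ Metric.ball (0 : E3) R) ≤
      volume (Metric.ball (0 : E3) R) := fun R => measure_mono Set.inter_subset_right
  have hlow : ∀ R : ℝ, c * ((volume (Metric.ball (0 : E3) (R - (r + D)))).toReal /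
      (volume (Metric.ball (0 : E3) R)).toReal) ≤
      (volume ((⋃ u ∈ lat g, tr u C) ∩ Metric.ball (0 : E3) R)).toReal /
        (volume (Metric.ball (0 : E3) R)).toReal := by
    intro R
    have hm := main hC hp hr hD R
    have hm' := ENNReal.toReal_mono (ENNReal.mul_ne_top hPc.measure_lt_top.ne
      ((hbd R).trans_lt measure_ball_lt_top).ne) hm
    rw [ENNReal.toReal_mul, ENNReal.toReal_mul] at hm'
    rw [← mul_div_assoc]
    refine div_le_div_of_nonneg_right ?_ ENNReal.toReal_nonneg
    rw [hc, div_mul_eq_mul_div, div_le_iff₀ hPpos, mul_comm _ (volume (parallelepiped g)).toReal]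
    exact hm'
  have hlim : Tendsto (fun R : ℝ => c * ((volume (Metric.ball (0 : E3) (R - (r + D)))).toReal /
      (volume (Metric.ball (0 : E3) R)).toReal)) atTop (𝓝 c) := by
    have := (lim (r + D)).const_mul c
    rwa [mul_one] at this
  unfold upperDensity
  rw [← hlim.limsup_eq]
  refine limsup_le_limsup (Eventually.of_forall hlow) hlim.isCoboundedUnder_le ?_
  refine ⟨1, ?_⟩
  rw [eventually_map]
  refine Eventually.of_forall fun R => ?_
  exact div_le_one_of_le₀ (ENNReal.toReal_mono measure_ball_lt_top.ne (hbd R))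
    ENNReal.toReal_nonneg

end Pool.Agent.H17.Cone
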