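import Pool.Agent.H17.Cone.Stmts

/-!
# Lower bound for the volume of the cone
-/

set_option autoImplicit false

namespace Pool.Agent.H17.Cone

open MeasureTheory Filter Topology Module

namespace VOL

/-- The standard simplex in coordinates. -/
def T (w : Basis (Fin 3) ℝ E3) : Set E3 :=
  {u : E3 | (∀ i, 0 ≤ w.repr u i) ∧ w.repr u 0 + w.repr u 1 + w.repr u 2 ≤ 1}

lemma T_convex (w : Basis (Fin 3) ℝ E3) : Convex ℝ (T w) := by
  intro x hx y hy s t hs ht hst
  refine ⟨fun i => ?_, ?_⟩
  · simp only [map_add, map_smul, Finsupp.add_apply, Finsupp.smul_apply, smul_eq_mul]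
    have := mul_nonneg hs (hx.1 i)
    have := mul_nonneg ht (hy.1 i)
    linarith
  · simp only [map_add, map_smul, Finsupp.add_apply, Finsupp.smul_apply, smul_eq_mul]
    have := mul_le_mul_of_nonneg_left hx.2 hs
    have := mul_le_mul_of_nonneg_left hy.2 ht
    linarith

/-- The linear map replacing `w i` by the vector with coordinates `c`. -/
noncomputable def A (w : Basis (Fin 3) ℝ E3) (i : Fin 3) (c : Fin 3 → ℝ) : E3 →ₗ[ℝ] E3 :=
  Matrix.toLin w w ((1 : Matrix (Fin 3) (Fin 3) ℝ).updateCol i c)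

lemma A_det (w : Basis (Fin 3) ℝ E3) (i : Fin 3) (c : Fin 3 → ℝ) :
    LinearMap.det (A w i c) = c i := by
  unfold A
  rw [LinearMap.det_toLin, ← Matrix.cramer_apply, Matrix.cramer_one]
  rfl

lemma A_repr (w : Basis (Fin 3) ℝ E3) (i : Fin 3) (c : Fin 3 → ℝ) (u : E3) (j : Fin 3) :
    w.repr (A w i c u) j = (if j = i then 0 else w.repr u j) + c j * w.repr u i := by
  unfold A
  rw [Matrix.repr_toLin]
  fin_cases i <;> fin_cases j <;>
    simp [Matrix.mulVec, dotProduct, Fin.sum_univ_three, Matrix.updateCol_apply,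
      Matrix.one_apply, add_comm]

lemma A_w (w : Basis (Fin 3) ℝ E3) (i : Fin 3) (c : Fin 3 → ℝ) (j : Fin 3) :
    A w i c (w j) = if j = i then ∑ k, c k • w k else w j := by
  unfold A
  rw [Matrix.toLin_self]
  split_ifs with h
  · subst h
    refine Finset.sum_congr rfl fun k _ => ?_
    rw [Matrix.updateCol_self]
  · rw [Finset.sum_eq_single j]
    · rw [Matrix.updateCol_ne h, Matrix.one_apply_eq, one_smul]
    · intro k _ hk
      rw [Matrix.updateCol_ne h, Matrix.one_apply_ne hk, zero_smul]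
    · intro hj
      exact absurd (Finset.mem_univ _) hj

/-- Points of the simplex spanned by `v` and three other points of a convex set. -/
lemma comb {S : Set E3} (hS : Convex ℝ S) {v : E3} (hv : v ∈ S) {q : Fin 3 → E3}
    (hq : ∀ j, q j + v ∈ S) {y : Fin 3 → ℝ} (hy : ∀ j, 0 ≤ y j) (hy1 : y 0 + y 1 + y 2 ≤ 1) :
    v + ∑ j, y j • q j ∈ S := by
  have h := hS.sum_mem (t := Finset.univ)
    (w := ![1 - (y 0 + y 1 + y 2), y 0, y 1, y 2])
    (z := ![v, q 0 + v, q 1 + v, q 2 + v]) (by
      intro i _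
      fin_cases i
      · change 0 ≤ 1 - (y 0 + y 1 + y 2)
        linarith
      · exact hy 0
      · exact hy 1
      · exact hy 2) (by
      rw [Fin.sum_univ_four]
      change 1 - (y 0 + y 1 + y 2) + y 0 + y 1 + y 2 = 1
      ring) (by
      intro i _
      fin_cases i
      · exact hv
      · exact hq 0
      · exact hq 1
      · exact hq 2)
  rw [Fin.sum_univ_four] at h
  have e : v + ∑ j, y j • q j = (1 - (y 0 + y 1 + y 2)) • v + y 0 • (q 0 + v) +
      y 1 • (q 1 + v) + y 2 • (q 2 + v) := by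
    rw [Fin.sum_univ_three]
    module
  rw [e]
  exact h

lemma aff (x : Fin 3 → (E2 →ᵃ[ℝ] ℝ)) (a : Fin 3 → E2) (hs : ∀ z, x 0 z + x 1 z + x 2 z = 1)
    (hr : ∀ z, x 0 z • a 0 + x 1 z • a 1 + x 2 z • a 2 = z) (f : E2 →ᵃ[ℝ] E3) (v : E3)
    (w : Basis (Fin 3) ℝ E3) (hw : ∀ i, w i = f (a i) - v) (z : E2) :
    f z - v = ∑ k, x k z • w k := by
  have h1 : ∀ y : E2, f y = f.linear y + f 0 := fun y => congrFun (AffineMap.decomp f) y
  have h2 : f.linear z = x 0 z • f.linear (a 0) + x 1 z • f.linear (a 1) +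
      x 2 z • f.linear (a 2) := by
    conv_lhs => rw [← hr z]
    simp only [map_add, map_smul]
  rw [Fin.sum_univ_three, hw, hw, hw, h1 z, h1 (a 0), h1 (a 1), h1 (a 2), h2]
  have h3 : x 2 z = 1 - x 0 z - x 1 z := by linarith [hs z]
  rw [h3]
  module

/-- The pieces. -/
noncomputable def S (w : Basis (Fin 3) ℝ E3) (v : E3) (c : Fin 3 → Fin 3 → ℝ) :
    Option (Fin 3) → Set E3
  | none => tr v (T w)
  | some i => tr v (A w i (c i) '' T w)

lemma S_convex (w : Basis (Fin 3) ℝ E3) (v : E3) (c : Fin 3 → Fin 3 → ℝ) (α : Option (Fin 3)) :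
    Convex ℝ (S w v c α) := by
  cases α with
  | none => exact (T_convex w).translate v
  | some i => exact ((T_convex w).linear_image (A w i (c i))).translate v

lemma vol_tr (u : E3) (C : Set E3) : volume (tr u C) = volume C := by
  unfold tr
  rw [Set.image_add_left, measure_preimage_add]

/-- Signs of the coordinates. -/
lemma S_sign {w : Basis (Fin 3) ℝ E3} {v : E3} {c : Fin 3 → Fin 3 → ℝ}
    (h1 : ∀ i, c i i ≤ 0) (h2 : ∀ i j, j ≠ i → 0 ≤ c i j) {α : Option (Fin 3)} {x : E3}
    (hx : x ∈ S w v c α) (i : Fin 3) :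
    (α = some i → w.repr (x - v) i ≤ 0) ∧ (α ≠ some i → 0 ≤ w.repr (x - v) i) := by
  cases α with
  | none =>
    obtain ⟨u, hu, rfl⟩ := hx
    refine ⟨fun h => by simp at h, fun _ => ?_⟩
    change 0 ≤ w.repr (v + u - v) i
    rw [add_sub_cancel_left]
    exact hu.1 i
  | some j =>
    obtain ⟨_, ⟨u, hu, rfl⟩, rfl⟩ := hx
    change (some j = some i → w.repr (v + A w j (c j) u - v) i ≤ 0) ∧
      (some j ≠ some i → 0 ≤ w.repr (v + A w j (c j) u - v) i)
    rw [add_sub_cancel_left, A_repr]
    refine ⟨fun h => ?_, fun h => ?_⟩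
    · have hij : j = i := Option.some.inj h
      subst hij
      rw [if_pos rfl, zero_add]
      exact mul_nonpos_of_nonpos_of_nonneg (h1 j) (hu.1 j)
    · have hij : i ≠ j := fun h' => h (by rw [h'])
      rw [if_neg hij]
      exact add_nonneg (hu.1 i) (mul_nonneg (h2 j i hij) (hu.1 j))

lemma hyp_null (w : Basis (Fin 3) ℝ E3) (v : E3) (i : Fin 3) :
    volume {x : E3 | w.repr (x - v) i = 0} = 0 := by
  have h : {x : E3 | w.repr (x - v) i = 0} = tr v (LinearMap.ker (w.coord i) : Submodule ℝ E3) := by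
    ext x
    constructor
    · intro hx
      exact ⟨x - v, hx, add_sub_cancel v x⟩
    · rintro ⟨u, hu, rfl⟩
      change w.repr (v + u - v) i = 0
      rw [add_sub_cancel_left]
      exact hu
  rw [h, vol_tr]
  refine Measure.addHaar_submodule _ _ fun ht => ?_
  have h1 : w i ∈ LinearMap.ker (w.coord i) := by
    rw [ht]
    trivial
  rw [LinearMap.mem_ker, Basis.coord_apply, Basis.repr_self, Finsupp.single_eq_same] at h1
  exact one_ne_zero h1

lemma S_disj {w : Basis (Fin 3) ℝ E3} {v : E3} {c : Fin 3 → Fin 3 → ℝ}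
    (h1 : ∀ i, c i i ≤ 0) (h2 : ∀ i j, j ≠ i → 0 ≤ c i j) :
    Pairwise (Function.onFun (AEDisjoint volume) (S w v c)) := by
  intro α β hαβ
  have key : ∀ (i : Fin 3) (γ δ : Option (Fin 3)), γ = some i → δ ≠ some i →
      S w v c γ ∩ S w v c δ ⊆ {x : E3 | w.repr (x - v) i = 0} := by
    rintro i γ δ hγ hδ x ⟨hx1, hx2⟩
    exact le_antisymm ((S_sign h1 h2 hx1 i).1 hγ) ((S_sign h1 h2 hx2 i).2 hδ)
  cases α with
  | none =>
    cases β with
    | none => exact absurd rfl hαβ
    | some i =>
      refine measure_mono_null ?_ (hyp_null w v i)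
      rw [Set.inter_comm]
      exact key i _ _ rfl (by simp)
  | some i =>
    refine measure_mono_null ?_ (hyp_null w v i)
    exact key i _ _ rfl (Ne.symm hαβ)

end VOL

open VOL in
theorem vol_thm (hSIM : SIMStmt) : VOLStmt := by
  intro K a x b e hK hKc hF f v w hw
  obtain ⟨c, hc⟩ : ∃ c : Fin 3 → Fin 3 → ℝ, c = fun i j => x j (e i) := ⟨_, rfl⟩
  have hcc : ∀ i j, c i j = x j (e i) := fun i j => by rw [hc]
  have h1 : ∀ i, c i i ≤ 0 := fun i => by
    rw [hcc, hF.eval]
    linarith [hF.nonneg i]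
  have h2 : ∀ i j, j ≠ i → 0 ≤ c i j := by
    intro i j hij
    rw [hcc]
    have hs := hF.sum (e i)
    have he := hF.eval i
    have hb := hF.nonneg i
    have hh := fun k => hF.high k (e i) (hF.emem i)
    have := hh 0
    have := hh 1
    have := hh 2
    fin_cases i <;> fin_cases j <;> simp only [Fin.zero_eta, Fin.mk_one, Fin.reduceFinMk, ne_eq,
      not_true_eq_false] at * <;> linarith
  have hco : Convex ℝ (cone f v K) := convex_convexHull ℝ _
  have hvc : v ∈ cone f v K := subset_convexHull ℝ _ (Or.inr rfl)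
  have hfc : ∀ z ∈ K, f z ∈ cone f v K := fun z hz =>
    subset_convexHull ℝ _ (Or.inl ⟨z, hz, rfl⟩)
  have hwc : ∀ j, w j + v ∈ cone f v K := fun j => by
    rw [hw, sub_add_cancel]
    exact hfc _ (hF.mem j)
  have hsub : ∀ α, S w v c α ⊆ cone f v K := by
    intro α
    cases α with
    | none =>
      rintro _ ⟨u, hu, rfl⟩
      change v + u ∈ _
      rw [← w.sum_repr u]
      exact comb hco hvc hwc hu.1 hu.2
    | some i =>
      rintro _ ⟨_, ⟨u, hu, rfl⟩, rfl⟩
      change v + A w i (c i) u ∈ _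
      have e1 : A w i (c i) u = ∑ j, w.repr u j • A w i (c i) (w j) := by
        conv_lhs => rw [← w.sum_repr u]
        rw [map_sum]
        simp only [map_smul]
      rw [e1]
      refine comb hco hvc (fun j => ?_) hu.1 hu.2
      rw [A_w]
      split_ifs with hji
      · have e2 := aff x a hF.sum hF.repr f v w hw (e i)
        have e3 : ∑ k, c i k • w k = f (e i) - v := by
          rw [e2]
          exact Finset.sum_congr rfl fun k _ => by rw [hcc]
        rw [e3, sub_add_cancel]
        exact hfc _ (hF.emem i)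
      · exact hwc j
  have hfin : volume (cone f v K) < ⊤ := by
    refine Bornology.IsBounded.measure_lt_top ?_
    unfold cone
    rw [isBounded_convexHull]
    refine Bornology.IsBounded.union ?_ Bornology.isBounded_singleton
    exact (hKc.image (AffineMap.continuous_of_finiteDimensional f)).isBounded
  have hTfin : volume (T w) < ⊤ := by
    rw [← vol_tr v (T w)]
    exact (measure_mono (hsub none)).trans_lt hfin
  have hT := hSIM w
  change (volume (T w)).toReal = _ at hT
  have hun : volume (⋃ α, S w v c α) ≤ volume (cone f v K) :=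
    measure_mono (Set.iUnion_subset hsub)
  rw [measure_iUnion₀ (S_disj h1 h2) (fun α => (S_convex w v c α).nullMeasurableSet _),
    tsum_fintype, Fintype.sum_option] at hun
  have hS0 : volume (S w v c none) = volume (T w) := vol_tr _ _
  have hSi : ∀ i, volume (S w v c (some i)) = ENNReal.ofReal (b i) * volume (T w) := by
    intro i
    change volume (tr v (A w i (c i) '' T w)) = _
    rw [vol_tr, Measure.addHaar_image_linearMap, A_det, hcc, hF.eval, abs_neg,
      abs_of_nonneg (hF.nonneg i)]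
  rw [hS0, Fin.sum_univ_three, hSi, hSi, hSi] at hun
  have hre := ENNReal.toReal_mono hfin.ne hun
  have hne : ∀ i, ENNReal.ofReal (b i) * volume (T w) ≠ ⊤ := fun i =>
    ENNReal.mul_ne_top ENNReal.ofReal_ne_top hTfin.ne
  rw [ENNReal.toReal_add hTfin.ne (by finiteness), ENNReal.toReal_add (by finiteness) (hne 2),
    ENNReal.toReal_add (hne 0) (hne 1), ENNReal.toReal_mul, ENNReal.toReal_mul,
    ENNReal.toReal_mul, ENNReal.toReal_ofReal (hF.nonneg 0), ENNReal.toReal_ofReal (hF.nonneg 1),
    ENNReal.toReal_ofReal (hF.nonneg 2), hT] at hre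
  refine le_trans (le_of_eq ?_) hre
  ring

end Pool.Agent.H17.Cone
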